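import Pool.Agent.Q221.TL.Final

/-!
# Q1 is stable under proper intersections, pullbacks and images

Setting, as in `AllPerfectoidFields` (starting point): `K` is a perfectoid field of characteristic `0`
and residue characteristic `p`, `E = K♭`, `C` is the completion of an algebraic closure of `K`, and
`F = C♭`, which contains `E`. The structure `Tilting p C F` consists of the absolute values, of the
sharp map from `F` to `C` and of the map `θ` of Fontaine; `BaseField T K E` says that `E` is perfect,
contains an element of absolute value `|p|`, and that `θ` maps the Witt vectors of the integers of `E`
onto the integers of `K`. Closed subsets of projective spaces are given by their cones: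
`IsConeOver K X` says that `X` is the zero set over `C` of an ideal of polynomials over `K` and is
stable under the multiplication by scalars; `DimGE X d`, `DimLE X d` bound the dimension (any `d` forms
have a common zero, some `d + 1` forms have no common zero). `Approximable T K E X d` is the statement
of Q1 for `X` in dimension `d`: every neighbourhood of `X` contains the image of a closed `Y` over
`K♭` of dimension `d` (for all homogeneous `P k` over `K` vanishing on `X` and all `ε > 0` there is a
closed `Y` of dimension `d`, defined over `E`, such that `|P k (y♯)| ≤ ε ‖y‖ ^ deg P k` on `Y`).

Theorem. Let `X_1, ..., X_N` be arbitrary closed subsets of projective spaces `ℙ^{n_s}` over `K`, of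
dimensions `d_s`, for which Q1 holds. Let `Z` be the set of the points `z` of `ℙ^m` such that
`h_1(z) = ... = h_c(z) = 0` and `φ_s(z) ∈ X_s` for all `s`, where the `h_j` are forms over `K` and
`φ_s = (φ_{s,0}, ..., φ_{s,n_s})` consists of forms over `K` of the same degree `a_s > 0`. Suppose
that `Z` has at most the expected dimension `d' = m - c - ∑ (n_s - d_s) ≥ 0`. Let `f_0, ..., f_r` be
forms over `K` of the same degree without common zeros on `Z`. Then Q1 holds for `f(Z)`, which is
closed, defined over `K` and of dimension `d'`.

Special cases:
* proper intersections (`φ_s` the identity): if Q1 holds for `X_1, ..., X_N` in `ℙ^n` and their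
  intersection has the expected dimension, then Q1 holds for the intersection;
* pullbacks of the expected dimension under rational maps `ℙ^m ⇢ ℙ^n`, for instance cones;
* images: if Q1 holds for `X` in `ℙ^n` then it holds for the image of `X` under each map
  `X → ℙ^r` given by forms of the same degree without common zeros on `X` (for instance Veronese
  embeddings, projections from linear subspaces which do not meet `X`, quotients by finite linear
  groups embedded by invariants); so Q1 for `X` in one projective embedding implies Q1 for all
  embeddings of `X` and of its finite images by forms.

The case `N = 0` is the theorem on images of complete intersections of `AllPerfectoidFields`. For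
`N > 0` the `X_s` are not assumed to be related to complete intersections in any way, the only
hypothesis is that Q1 holds for them.

Proof. Let `R_{s,l}` be forms which define `X_s`. Consider the system
`h_j(z) = 0`, `w_{s,i}^{a_s} = φ_{s,i}(z)`, `y_j^e = f_j(z)`, `R_{s,l}(w_s^{a_s}) = 0` in the variables
`z`, `w`, `y`. The first three groups of equations are approximated by forms `G` over `E`, as in the
case of complete intersections. The last group is replaced by `w_s^{a_s} ∈ Y_s`, where `Y_s` over `E`
is given by Q1 for `X_s` and the forms `R_{s,l}`. Let `Y` be the set of the `(y_j^e)` for the solutions
`(z, w, y)` over `F`. By the Nullstellensatz over `C` the point `y` is not small compared with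
`(z, w)`, and all forms which vanish on `f(Z)` are small on `Y`. To bound the dimension of `Y` from
below one needs the dimension of the cone of the `(z, w, y)` with `w_s^{a_s} ∈ Y_s`. For this we
prove that a closed cone which is mapped onto an affine space `F^M` by `M` forms of the same degree
without common nonzero zeros has a coordinate ring of Krull dimension `M` (a graded Nakayama lemma
shows that the ring is integral over a polynomial ring), and that a closed cone whose coordinate
ring has Krull dimension at least `d + 1` contains a common zero of any `d` forms. The upper bound for
the dimension of `Y` is automatic for small neighbourhoods; the forms over `K` which are needed for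
it are found by Noether normalization with linear forms over the infinite field `K`.
-/

set_option autoImplicit false

namespace Pool.Agent.Results.MP_db3ab1_ag.Correspondences

open MvPolynomial Pool.Agent.Y129.TA Pool.Agent.Y129.TB Pool.Agent.Q221.TL

/-- If Q1 holds for the closed subsets `X s` of the projective spaces of dimensions `n s` over the
perfectoid field `K`, then it holds for the image under `f` of the set of the `z` in the projective
space of dimension `m` with `h j (z) = 0` for all `j` and `φ s (z)` in `X s` for all `s`, if this set
has at most the expected dimension `d'`. -/
theorem result {p : ℕ} [Fact p.Prime] {C F K E : Type} [Field C] [Field F] [CharP F p] [Field K]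
    [Field E] [Algebra K C] [Algebra E F] [IsAlgClosed C] [IsAlgClosed F] (T : Tilting p C F)
    (B : BaseField T K E) {N m c r e d' : ℕ} {n d a : Fin N → ℕ}
    (X : ∀ s, Set (Fin (n s + 1) → C)) (hX : ∀ s, IsConeOver K (X s))
    (hXd : ∀ s, DimGE (X s) (d s) ∧ DimLE (X s) (d s))
    (hXa : ∀ s, Approximable T.toTiltPair K E (X s) (d s))
    (h : Fin c → MvPolynomial (Fin (m + 1)) K) (hh : ∀ j, IsForm (h j))
    (φ : ∀ s, Fin (n s + 1) → MvPolynomial (Fin (m + 1)) K) (ha : ∀ s, 0 < a s)
    (hφ : ∀ s i, (φ s i).IsHomogeneous (a s))
    (hZ : DimLE (fiberSet C X h φ) d') (hd : c + ∑ s, n s + d' ≤ m + ∑ s, d s)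
    (f : Fin (r + 1) → MvPolynomial (Fin (m + 1)) K) (he : 0 < e)
    (hf : ∀ i, (f i).IsHomogeneous e) (h0 : NoZeroOn (fiberSet C X h φ) f) :
    IsConeOver K (imageSet (fiberSet C X h φ) f) ∧
      DimGE (imageSet (fiberSet C X h φ) f) d' ∧ DimLE (imageSet (fiberSet C X h φ) f) d' ∧
        Approximable T.toTiltPair K E (imageSet (fiberSet C X h φ) f) d' := by
  refine corr_final T B hX (fun s => (hXd s).1) (fun s => (hXd s).2) hXa hh ha hφ he hf h0 ?_ hZ
  simp only [Fintype.card_fin, Finset.sum_add_distrib]
  omega

end Pool.Agent.Results.MP_db3ab1_ag.Correspondences
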