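import Pool.Agent.Q221.NF.Final

/-!
# Reduction of Q1 to smooth varieties over number fields

Setting, as in `AllPerfectoidFields` (starting point): `K` is a perfectoid field of characteristic `0`
and residue characteristic `p`, `E = K♭`, `C` is the completion of an algebraic closure of `K`, and
`F = C♭`, which contains `E`. The structure `Tilting p C F` consists of the absolute values, of the
sharp map from `F` to `C` and of the map `θ` of Fontaine; `BaseField T K E` says that `E` is perfect,
contains an element of absolute value `|p|`, and that `θ` maps the Witt vectors of the integers of `E`
onto the integers of `K`. Closed subsets of projective spaces are given by their cones; `DimGE X d`,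
`DimLE X d` bound the dimension (any `d` forms have a common zero, some `d + 1` forms have no common
zero). `Approximable T K E X d` is the statement of Q1 for `X` in dimension `d`: for all homogeneous
`P k` over `K` vanishing on `X` and all `ε > 0` there is a closed `Y` of dimension `d`, defined over
`E`, such that `|P k (y♯)| ≤ ε ‖y‖ ^ deg P k` on `Y`. For a subfield `k` of `K` and `X` defined over
`k`, `Approximable T k E X d` is the same statement for forms over `k`.

Let `k` be a dense subfield of `K` which is algebraically closed in `K`. The main example: `K` is the
completion of an algebraic extension of `ℚ_p`, for instance `K = ℂ_p` or the completion of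
`ℚ_p(p^{1/p^∞})`, and `k` is the field of all algebraic numbers in `K`, which is dense by Krasner's
lemma. In this case the varieties over `k` are the varieties over number fields contained in `K`.

`IsSmoothOver K X d D`: `X` is (the cone over) a nonempty smooth closed subscheme of `ℙ^n`, of pure
dimension `d`, defined by `N` forms over `K` of degrees `D_1, ..., D_N`. Smoothness of pure
codimension `m = n - d` is defined by the Jacobian criterion (`SmoothPure`): for each point `y` of `X`
there are `m` of the forms, `P_s`, a minor of size `m` of their Jacobian matrix which does not vanish
at `y`, and a form `h` over `K` with `h(y) ≠ 0`, such that `h P_j` is in the ideal generated by the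
`P_s` for all `j`; that is, near `y` the scheme is defined by the `P_s`.

Theorem. Let `n`, `d`, `N` and `D_1, ..., D_N > 0` be given. Q1 holds for all smooth `X` in `ℙ^n` over
`K` of pure dimension `d` defined by `N` forms of degrees `D_j` if and only if it holds for all such
`X` which are defined over `k`.

So for the completions `K` of algebraic extensions of `ℚ_p` Q1 is a question about varieties
over number fields, which are countable in number, and it does not involve `K`-points in general
position. If `X` is smooth but not of pure dimension one may replace it by the union of its
components of maximal dimension.

Proof. Let `X` over `K` be given by the forms `P_j`. Let `c` be the family of the coefficients of the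
`P_j` and of the identities `h P_j = ∑ e_s P_s` for finitely many data as above which suffice for all
points of `X`. The main lemma: for every `ε > 0` there is a family `c'` of elements of `k`, with
`|c'_i - c_i| ≤ ε`, which satisfies all polynomial relations over `k` between the `c_i`. It is proved by
induction on the number of elements: if `s` is algebraic over the others, consider
a polynomial of minimal degree in one variable, whose coefficients are polynomials in the other
elements, which vanishes at `s`; `s` is a simple root, and one uses that simple roots
depend continuously on the coefficients (Newton's lemma; `K` is complete), and that `k` is
algebraically closed in `K`; if `s` is not algebraic over the others choose any element of `k` close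
to `s`. Now let `P'_j` be the forms with the coefficients specialised to `c'`, and let `X'` be their
set of zeros. The identities are preserved, and by the Nullstellensatz the products of `h` and
the minors have no common zero on `X'` if `c'` is close to `c`; so `X'` is smooth of pure codimension
`m`. In the same way `dim X' ≤ d`. The dimension of `X'` is not smaller than `d`: otherwise there
would be `d` linear forms over `k` without common zero on `X'`, and by Nakayama's lemma, applied to
the forms of large degree modulo `(P, q)` over the ring generated by the `c_i`, the same linear forms
would have no common zero on `X`. Finally, by the Nullstellensatz the forms vanishing on `X` are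
small at all points (over `C`) where the `P'_j` are small, if `c'` is close to `c`. Hence
the sets `Y` for `X'` approximate `X`.
-/

set_option autoImplicit false

namespace Pool.Agent.Results.MP_db3ab1_ag.NumberFields

open MvPolynomial Pool.Agent.Y129.TA Pool.Agent.Y129.TB Pool.Agent.Q221.NF

/-- Let `K` be a perfectoid field of characteristic `0` (complete), `k` a dense subfield which is
algebraically closed in `K`. Q1 holds for all smooth closed subschemes of `ℙ^n` over `K`, of pure
dimension `d`, defined by `N` forms of degrees `D 1, ..., D N`, if and only if it holds for those
defined over `k`. -/
theorem result {p : ℕ} [Fact p.Prime] {C F K E k : Type} [Field C] [Field F] [CharP F p] [Field K]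
    [CharZero K] [Field E] [Field k] [Algebra K C] [Algebra E F] [Algebra k K] [Algebra k C]
    [IsScalarTower k K C] [IsAlgClosed C] [IsAlgClosed F] (T : Tilting p C F)
    (_B : BaseField T K E) (hcomp : IsCompleteFor (T.absK.comp (algebraMap K C).injective))
    (hdense : ∀ (x : K) (ε : ℝ), 0 < ε →
      ∃ y : k, T.absK (algebraMap K C (algebraMap k K y - x)) ≤ ε)
    (halg : ∀ x : K, IsAlgebraic k x → ∃ y : k, algebraMap k K y = x) (n d N : ℕ)
    (D : Fin N → ℕ) (hD : ∀ j, 0 < D j) :
    (∀ X : Set (Fin (n + 1) → C), IsSmoothOver K X d D → Approximable T.toTiltPair K E X d) ↔
      ∀ X : Set (Fin (n + 1) → C), IsSmoothOver k X d D → Approximable T.toTiltPair k E X d :=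
  ⟨fun h X hX => approximable_restrict (K := K) T.toTiltPair (h X hX.base_change),
    fun h _ hX => transfer T.toTiltPair hcomp hdense halg hD h hX⟩

end Pool.Agent.Results.MP_db3ab1_ag.NumberFields
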