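import Pool.Agent.Q221.TL.Prod

/-!
# Q1 is stable under products

Setting, as in `AllPerfectoidFields` (starting point): `K` is a perfectoid field of characteristic `0`
and residue characteristic `p`, `E = K♭`, `C` is the completion of an algebraic closure of `K`, and
`F = C♭`, which contains `E`. The structure `Tilting p C F` consists of the absolute values, of the
sharp map from `F` to `C` and of the map `θ` of Fontaine; `BaseField T K E` says that `E` is perfect,
contains an element of absolute value `|p|`, and that `θ` maps the Witt vectors of the integers of `E`
onto the integers of `K`. Closed subsets of projective spaces are given by their cones: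
`IsConeOver K X` says that `X` is the zero set over `C` of an ideal of polynomials over `K` and is
stable under the multiplication by scalars; `DimGE X d`, `DimLE X d` bound the dimension (any `d` forms
have a common zero, some `d + 1` forms have no common zero). `Approximable T K E X d` is the statement
of Q1 for `X` in dimension `d`: for all homogeneous `P k` over `K` vanishing on `X` and all `ε > 0`
there is a closed `Y` of dimension `d`, defined over `E`, such that `|P k (y♯)| ≤ ε ‖y‖ ^ deg P k`
on `Y`.

Theorem. Let `X₁` and `X₂` be closed subsets of `ℙ^{n₁}` and `ℙ^{n₂}` over `K` of dimensions `d₁` and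
`d₂` for which Q1 holds. Let `f_0, ..., f_r` be bihomogeneous polynomials over `K` of the same bidegree
`(a, b)`, `a, b > 0`, without common zeros on `X₁ × X₂`. Then Q1 holds for the image of `X₁ × X₂` in
`ℙ^r` under `(f_0 : ... : f_r)`, which is closed, defined over `K` and of dimension `d₁ + d₂`.

So if Q1 is known for `X₁` and `X₂`, it holds for all embeddings of `X₁ × X₂` by bihomogeneous forms.
Some unconditional cases, with `AllPerfectoidFields`: the products `X₁ × X₂` of (finite unions of)
images of complete intersections over any perfectoid field `K`, for instance products of smooth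
plane curves, in all embeddings given by bihomogeneous forms; the quotients of such products by finite
groups embedded by invariants; by induction, products of any number of factors. If `X₁` is a curve
of genus at least `1` and `X₂` is normal of positive dimension then `X₁ × X₂` is not the image
of a complete intersection in a projective space, since `H^1` of its structure sheaf is not zero. For
the field `ℂ_p` and complete intersections in products of projective spaces see the starting point
`ImagesOfCompleteIntersections`; here `K` is an arbitrary perfectoid field, `Y` is defined over `K♭`,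
and `X₁`, `X₂` are arbitrary.

Proof. First let `a = b = 1` and let `f` be the Segre embedding. Take `Y₁` and `Y₂` over `E` close to
`X₁` and `X₂`, and let `Y` be their product, embedded by the Segre embedding. If `y₁` and `y₂` are
normalised, then `y₁ ⊗ y₂` is normalised, and by the Nullstellensatz all forms which vanish on
`X₁ × X₂` are small at the image of `y₁ ⊗ y₂` under the sharp map. For the dimension of `Y`, choose
`d₁ + 1` forms `u_i` on `Y₁` and `d₂ + 1` forms `v_j` on `Y₂`, all of the same degree, without common
zeros. They map the cones over `Y₁` and `Y₂` onto affine spaces. The forms `∑_{i + j = s} u_i ⊗ v_j`,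
`s = 0, ..., d₁ + d₂`, are the coefficients of the product of the polynomials `∑ u_i t^i` and
`∑ v_j t^j`. So they have no common zero on `Y`, and since polynomials over an algebraically closed
field split into linear factors, they map the cone over `Y` onto the affine space of dimension
`d₁ + d₂ + 1`. Hence `Y` has dimension `d₁ + d₂`. The general case follows: the map `f` is
the composite of the Veronese maps given by all monomials of degrees `a` and `b`, the Segre embedding
and a map given by linear forms without common zeros, and Q1 is stable under images.
-/

set_option autoImplicit false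

namespace Pool.Agent.Results.MP_db3ab1_ag.Products

open MvPolynomial Pool.Agent.Y129.TA Pool.Agent.Y129.TB Pool.Agent.Q221.TL

/-- If Q1 holds for the closed subsets `X₁` and `X₂` of projective spaces over the perfectoid field
`K`, then it holds for the image of `X₁ × X₂` under each map given by bihomogeneous forms of the same
bidegree `(a, b)`, `a, b > 0`, without common zeros on `X₁ × X₂`. -/
theorem result {p : ℕ} [Fact p.Prime] {C F K E : Type} [Field C] [Field F] [CharP F p] [Field K]
    [Field E] [Algebra K C] [Algebra E F] [IsAlgClosed C] [IsAlgClosed F] (T : Tilting p C F)
    (B : BaseField T K E) {n₁ n₂ r d₁ d₂ a b : ℕ} (X₁ : Set (Fin (n₁ + 1) → C))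
    (X₂ : Set (Fin (n₂ + 1) → C)) (h₁ : IsConeOver K X₁) (h₂ : IsConeOver K X₂)
    (hd₁ : DimGE X₁ d₁ ∧ DimLE X₁ d₁) (hd₂ : DimGE X₂ d₂ ∧ DimLE X₂ d₂)
    (a₁ : Approximable T.toTiltPair K E X₁ d₁) (a₂ : Approximable T.toTiltPair K E X₂ d₂)
    (ha : 0 < a) (hb : 0 < b)
    (f : Fin (r + 1) → MvPolynomial (Fin (n₁ + 1) ⊕ Fin (n₂ + 1)) K)
    (hf : ∀ j, IsBihomogeneous (f j) a b) (h0 : NoZeroOnProduct X₁ X₂ f) :
    IsConeOver K (productImage X₁ X₂ f) ∧ DimGE (productImage X₁ X₂ f) (d₁ + d₂) ∧
      DimLE (productImage X₁ X₂ f) (d₁ + d₂) ∧
        Approximable T.toTiltPair K E (productImage X₁ X₂ f) (d₁ + d₂) :=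
  productImage_final T B h₁ h₂ hd₁.1 hd₁.2 hd₂.1 hd₂.2 a₁ a₂ ha hb hf h0

end Pool.Agent.Results.MP_db3ab1_ag.Products
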