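import Pool.Agent.Q221.TL.Prod

/-!
# Q1 for the varieties generated by toric varieties, products and correspondences

Setting, as in `AllPerfectoidFields` (starting point): `K` is a perfectoid field of characteristic `0`
and residue characteristic `p`, `E = K♭`, `C` is the completion of an algebraic closure of `K`, and
`F = C♭`, which contains `E`. The structure `Tilting p C F` consists of the absolute values, of the
sharp map from `F` to `C` and of the map `θ` of Fontaine; `BaseField T K E` says that `E` is perfect,
contains an element of absolute value `|p|`, and that `θ` maps the Witt vectors of the integers of `E`
onto the integers of `K`. Closed subsets of projective spaces are given by their cones:
`IsConeOver K X` says that `X` is the zero set over `C` of an ideal of polynomials over `K` and is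
stable under the multiplication by scalars; `DimGE X d`, `DimLE X d` bound the dimension (any `d` forms
have a common zero, some `d + 1` forms have no common zero). `Approximable T K E X d` is the statement
of Q1 for `X` in dimension `d`: for all homogeneous `P k` over `K` vanishing on `X` and all `ε > 0`
there is a closed `Y` of dimension `d`, defined over `E`, such that `|P k (y♯)| ≤ ε ‖y‖ ^ deg P k`
on `Y`. The coordinates of a projective space are indexed by a finite nonempty set `ι`.

`Generated C K ι X d` (`X` a closed subset, of dimension `d`, of the projective space over `K` with
coordinates indexed by `ι`) is the smallest class with the following properties.
* `toric`: it contains the sets defined by a set of homogeneous equations `x^u = x^v` between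
  monomials, if they have dimension at least `d` over every algebraically closed field and at most
  `d` over `C` (the dimension of such a set does not depend on the field; these are the unions of
  projective toric varieties, for instance the whole space);
* `union`: it contains the finite unions of its members of the same dimension;
* `product`: it contains the products of its members, embedded by the Segre embedding;
* `corr`: if it contains `X_1, ..., X_N` (`N ≥ 0`), of dimensions `d_s` in `ℙ^{n_s}`, and if the set
  `Z` of the `z` in `ℙ^m` such that `h_j(z) = 0` for `c` forms `h_j` over `K` and `φ_s(z) ∈ X_s` for
  all `s`, where `φ_s` is given by forms over `K` of the same degree, has at most the expected
  dimension `d' = m - c - ∑ (n_s - d_s) ≥ 0`, then it contains `f(Z)` for all maps `f` given by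
  forms over `K` of the same degree without common zeros on `Z`, in dimension `d'`.

Theorem. Q1 holds for all members of this class; they are closed, defined over `K`, and of the
given dimension.

Remarks (not part of the formal statement). The class contains the set-theoretic complete
intersections and their images (`corr` with `N = 0`; for these see `AllPerfectoidFields`). It
also contains, over every perfectoid field `K` and usually not of this form:
* the loci of points of `ℙ^m` where a `k × l` matrix of forms has rank at most `1`, if they have
  the expected codimension `(k - 1)(l - 1)`: they are the pullbacks of the Segre variety
  `ℙ^{k - 1} × ℙ^{l - 1}`. For general forms and `m < k l` they are smooth, and of positive
  dimension if `m > (k - 1)(l - 1)`; more generally pullbacks of projective toric varieties of the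
  expected dimension under rational maps given by forms;
* proper intersections of members of the class in the same projective space, for instance the
  intersections of products of curves with hypersurfaces, with toric varieties, or with their
  translates under projective transformations;
* products of any members of the class under all bihomogeneous maps (compose the Segre embedding
  with Veronese maps and linear projections), quotients of such products by finite groups, embedded
  by invariants, and joins and cones.
Here `K` need not be algebraically closed and `Y` is defined over `K♭`, as is needed for the
weight-monodromy conjecture. Complete intersections in (smooth, projective) toric varieties, and the
approximation inside the toric variety, are treated by Scholze (Perfectoid spaces, Section 8); the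
starting point `ImagesOfCompleteIntersections` treats `ℂ_p` and images of complete intersections in
products of projective spaces.

Proof. For a set given by equations between monomials one can take for `Y` the set given by the same
equations over `E`, because the sharp map is multiplicative. The steps `product` and `corr`
are explained in the files `Products` and `Correspondences`. For `union` one takes the
union of the sets `Y`; the upper bound for the dimension follows from the fact that in small
neighbourhoods of `X` the `d + 1` forms over `E` which approximate `d + 1` forms over `K` without
common zeros on `X` have no common zeros.
-/

set_option autoImplicit false

namespace Pool.Agent.Results.MP_db3ab1_ag.ToricCorrespondences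

open MvPolynomial Pool.Agent.Y129.TA Pool.Agent.Y129.TB Pool.Agent.Q221.TL

/-- Q1 holds for all members of the smallest class of closed subsets of projective spaces over the
perfectoid field `K` which contains the sets given by homogeneous equations between monomials and is
closed under finite unions, products and correspondences of the expected dimension. -/
theorem result {p : ℕ} [Fact p.Prime] {C F K E : Type} [Field C] [Field F] [CharP F p] [Field K]
    [Field E] [Algebra K C] [Algebra E F] [IsAlgClosed C] [IsAlgClosed F] (T : Tilting p C F)
    (B : BaseField T K E) {ι : Type} {X : Set (ι → C)} {d : ℕ} (h : Generated C K ι X d) :
    IsConeOver K X ∧ DimGE X d ∧ DimLE X d ∧ Approximable T.toTiltPair K E X d :=
  generated_final T B h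

end Pool.Agent.Results.MP_db3ab1_ag.ToricCorrespondences
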